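import Pool.Agent.Lib.MP_b4a791_lc.Final

/-!
# MP_b4a791_lc: `RT²₂` is not a strong minimal cover of `EM`

For each of the three preorders (i) `RCA₀`-provable implication, (ii) implication over `ω`-models,
(iii) computable reducibility: `RT²₂(1302)` is strictly below `RT²₂` and is not below `EM`. In
particular `RT²₂` is not a strong minimal cover of `EM`.
-/

namespace Pool.Agent.Results.MP_b4a791_lc.NotStrongMinimalCover

open Pool.Agent.Lib.MP_b4a791_lc

theorem result :
    (∃ hp : pat1302.NonConst,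
      (Gt GeI .rt22 (.pat pat1302 hp) ∧ ¬ GeI .em (.pat pat1302 hp)) ∧
      (Gt GeII .rt22 (.pat pat1302 hp) ∧ ¬ GeII .em (.pat pat1302 hp)) ∧
      (Gt GeIII .rt22 (.pat pat1302 hp) ∧ ¬ GeIII .em (.pat pat1302 hp))) ∧
    ¬ StrongMinimalCover GeI .rt22 .em ∧ ¬ StrongMinimalCover GeII .rt22 .em ∧
      ¬ StrongMinimalCover GeIII .rt22 .em :=
  ⟨⟨pat1302_nonConst, main_gt⟩, main_not_smc⟩

end Pool.Agent.Results.MP_b4a791_lc.NotStrongMinimalCover
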